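import Pool.Agent.Helper98.GX.St

/-!
# Project GX, MODULE LAM: the value of a vertex valuation at a nef divisor
-/

set_option autoImplicit false

open scoped BigOperators

namespace Pool.Agent.Helper32.GX

open Pool.Agent.Helper98.GX
open Pool.Agent.Helper53.CX (DivVal LinSys IsNefCartier)

section
variable {K : Type} [Field K] [Algebra ℂ K]

private lemma ord_one (v : DivVal K) : v.ord 1 = 0 := by
  have h := v.ord_mul 1 1 one_ne_zero one_ne_zero
  rw [mul_one] at h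
  omega

private lemma ord_pow (v : DivVal K) {g : K} (hg : g ≠ 0) (k : ℕ) :
    v.ord (g ^ k) = k * v.ord g := by
  induction k with
  | zero =>
    rw [pow_zero, ord_one]
    simp
  | succ k ih =>
    rw [pow_succ, v.ord_mul _ _ (pow_ne_zero _ hg) hg, ih]
    push_cast
    ring

private lemma ord_div (v : DivVal K) {f g : K} (hf : f ≠ 0) (hg : g ≠ 0) :
    v.ord (f / g) = v.ord f - v.ord g := by
  have h := v.ord_mul (f / g) g (div_ne_zero hf hg) hg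
  rw [div_mul_cancel₀ _ hg] at h
  omega

private lemma ord_prod (v : DivVal K) {α : Type} [DecidableEq α] (T : Finset α) (g : α → K)
    (k : α → ℕ) (hg : ∀ p ∈ T, g p ≠ 0) :
    v.ord (∏ p ∈ T, g p ^ k p) = ∑ p ∈ T, (k p : ℤ) * v.ord (g p) := by
  induction T using Finset.induction_on with
  | empty => simp [ord_one]
  | insert a T ha ih =>
    have h1 : ∏ p ∈ T, g p ^ k p ≠ 0 :=
      Finset.prod_ne_zero_iff.mpr
        (fun p hp => pow_ne_zero _ (hg p (Finset.mem_insert_of_mem hp)))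
    rw [Finset.prod_insert ha, Finset.sum_insert ha,
      v.ord_mul _ _ (pow_ne_zero _ (hg a (Finset.mem_insert_self _ _))) h1,
      ord_pow v (hg a (Finset.mem_insert_self _ _)),
      ih (fun p hp => hg p (Finset.mem_insert_of_mem hp))]

private lemma le_div (F : LinSys K) (v : DivVal K) {f : K} (hf : f ∈ F.gens) :
    -v.ord f ≤ F.div v :=
  Finset.le_sup' (fun f => - v.ord f) hf

private lemma div_eq (F : LinSys K) (v : DivVal K) : ∃ f ∈ F.gens, F.div v = - v.ord f := by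
  obtain ⟨f, hf, h⟩ := Finset.exists_mem_eq_sup' F.nonempty (fun f => - v.ord f)
  exact ⟨f, hf, h⟩

private lemma fin_div {V : NormalProj K} (E : VertexVal V) (F : LinSys K) :
    {p | p ∈ V.primes ∧ F.div p ≠ 0}.Finite := by
  have h : (⋃ f ∈ (F.gens : Set K), {p | p ∈ V.primes ∧ p.ord f ≠ 0}).Finite :=
    Set.Finite.biUnion F.gens.finite_toSet (fun f hf => E.finite f (F.ne_zero f hf))
  refine h.subset ?_
  rintro p ⟨hp, hne⟩
  obtain ⟨f, hf, hfe⟩ := div_eq F p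
  rw [hfe] at hne
  exact Set.mem_biUnion (show f ∈ (F.gens : Set K) from hf)
    ⟨hp, fun h0 => hne (by rw [h0, neg_zero])⟩

private lemma fs_eq {α : Type} {S : Set α} {T : Finset α} (u : α → ℤ) (h1 : ∀ p ∈ T, p ∈ S)
    (h2 : ∀ p ∈ S, p ∉ T → u p = 0) : ∑ᶠ p ∈ S, u p = ∑ p ∈ T, u p := by
  refine finsum_mem_eq_sum_of_inter_support_eq u ?_
  ext p
  simp only [Set.mem_inter_iff, Function.mem_support, Finset.mem_coe]
  constructor
  · rintro ⟨hp, hne⟩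
    refine ⟨?_, hne⟩
    by_contra hT
    exact hne (h2 p hp hT)
  · rintro ⟨hp, hne⟩
    exact ⟨h1 p hp, hne⟩

private lemma key {V : NormalProj K} (E : VertexVal V) (M Ad : DivVal K → ℤ)
    (T0 : Finset (DivVal K)) (hT0 : ∀ p ∈ T0, p ∈ V.primes)
    (hM0 : ∀ p ∈ V.primes, p ∉ T0 → M p = 0) (hA0 : ∀ p ∈ V.primes, p ∉ T0 → Ad p = 0)
    (ℓ a0 : ℤ) (hℓ : ∑ p ∈ T0, (E.lam p : ℤ) * M p = ℓ + E.κ * M E.w)
    (ha0 : ∑ p ∈ T0, (E.lam p : ℤ) * Ad p = a0 + E.κ * Ad E.w)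
    (F : LinSys K) (N m : ℕ) (hF : ∀ v : DivVal K, (N : ℤ) * ((m : ℤ) * M v + Ad v) = F.div v)
    (f : K) (hf : f ∈ F.gens) (hfw : F.div E.w = - E.w.ord f) :
    ∃ T : Finset (DivVal K), (∀ p ∈ T, p ∈ V.primes) ∧
      (∀ p ∈ V.primes, p ∉ T → p.ord f + F.div p = 0) ∧
      ∑ p ∈ T, (E.lam p : ℤ) * (p.ord f + F.div p) = N * (m * ℓ + a0) := by
  classical
  have hf0 := F.ne_zero f hf
  set T1 := (E.finite f hf0).toFinset with hT1
  have hT1m : ∀ p, p ∈ T1 ↔ p ∈ V.primes ∧ p.ord f ≠ 0 := by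
    intro p
    rw [hT1, Set.Finite.mem_toFinset]
    rfl
  have hTS : ∀ p ∈ T0 ∪ T1, p ∈ V.primes := by
    intro p hp
    rcases Finset.mem_union.mp hp with h | h
    · exact hT0 p h
    · exact ((hT1m p).mp h).1
  refine ⟨T0 ∪ T1, hTS, ?_, ?_⟩
  · intro p hp hn
    rw [Finset.mem_union, not_or] at hn
    have h1 : p.ord f = 0 := by
      by_contra h
      exact hn.2 ((hT1m p).mpr ⟨hp, h⟩)
    rw [h1, ← hF p, hM0 p hp hn.1, hA0 p hp hn.1]
    simp
  · have s1 : ∑ p ∈ T0 ∪ T1, (E.lam p : ℤ) * p.ord f = E.κ * E.w.ord f := by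
      rw [← E.lin f hf0]
      refine (fs_eq _ hTS ?_).symm
      intro p hp hn
      rw [Finset.mem_union, not_or] at hn
      have h1 : p.ord f = 0 := by
        by_contra h
        exact hn.2 ((hT1m p).mpr ⟨hp, h⟩)
      rw [h1, mul_zero]
    have s2 : ∑ p ∈ T0 ∪ T1, (E.lam p : ℤ) * M p = ℓ + E.κ * M E.w := by
      rw [← hℓ]
      refine (Finset.sum_subset Finset.subset_union_left ?_).symm
      intro p hp hn
      rw [hM0 p (hTS p hp) hn, mul_zero]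
    have s3 : ∑ p ∈ T0 ∪ T1, (E.lam p : ℤ) * Ad p = a0 + E.κ * Ad E.w := by
      rw [← ha0]
      refine (Finset.sum_subset Finset.subset_union_left ?_).symm
      intro p hp hn
      rw [hA0 p (hTS p hp) hn, mul_zero]
    have s4 : ∑ p ∈ T0 ∪ T1, (E.lam p : ℤ) * (p.ord f + F.div p) =
        ∑ p ∈ T0 ∪ T1, (E.lam p : ℤ) * p.ord f +
        ((N : ℤ) * m * ∑ p ∈ T0 ∪ T1, (E.lam p : ℤ) * M p +
        (N : ℤ) * ∑ p ∈ T0 ∪ T1, (E.lam p : ℤ) * Ad p) := by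
      rw [Finset.mul_sum, Finset.mul_sum, ← Finset.sum_add_distrib, ← Finset.sum_add_distrib]
      refine Finset.sum_congr rfl fun p _ => ?_
      rw [← hF p]
      ring
    rw [s4, s1, s2, s3]
    have h5 := hF E.w
    rw [hfw] at h5
    linear_combination (E.κ : ℤ) * h5

end

theorem hLAM (hSTAR : StSTAR) : StLAM := by
  intro K _ _ V E M hM hnp
  classical
  obtain ⟨A, hA⟩ := hM
  obtain ⟨N1, F1, hN1, hF1⟩ := hA 1 le_rfl
  have hMfin : {p | p ∈ V.primes ∧ M p ≠ 0}.Finite := by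
    refine ((fin_div E A).union (fin_div E F1)).subset ?_
    rintro p ⟨hp, hne⟩
    by_contra hcon
    have h1 : A.div p = 0 := by
      by_contra h
      exact hcon (Or.inl ⟨hp, h⟩)
    have h2 : F1.div p = 0 := by
      by_contra h
      exact hcon (Or.inr ⟨hp, h⟩)
    have h3 := hF1 p
    rw [h1, h2, Nat.cast_one, one_mul, add_zero] at h3
    rcases mul_eq_zero.mp h3 with h | h
    · have : (1 : ℤ) ≤ N1 := by exact_mod_cast hN1
      omega
    · exact hne h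
  refine ⟨hMfin, ?_⟩
  by_contra hcon
  apply hnp
  set T0 := hMfin.toFinset ∪ (fin_div E A).toFinset with hT0
  have hTM : ∀ p ∈ V.primes, p ∉ T0 → M p = 0 := by
    intro p hp hn
    by_contra h
    exact hn (Finset.mem_union_left _ ((Set.Finite.mem_toFinset _).mpr ⟨hp, h⟩))
  have hTA : ∀ p ∈ V.primes, p ∉ T0 → A.div p = 0 := by
    intro p hp hn
    by_contra h
    exact hn (Finset.mem_union_right _ ((Set.Finite.mem_toFinset _).mpr ⟨hp, h⟩))
  have hTS : ∀ p ∈ T0, p ∈ V.primes := by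
    intro p hp
    rcases Finset.mem_union.mp hp with h | h
    · exact ((Set.Finite.mem_toFinset _).mp h).1
    · exact ((Set.Finite.mem_toFinset _).mp h).1
  have hfsM : ∑ᶠ p ∈ V.primes, (E.lam p : ℤ) * M p = ∑ p ∈ T0, (E.lam p : ℤ) * M p :=
    fs_eq _ hTS (fun p hp hn => by rw [hTM p hp hn, mul_zero])
  rw [hfsM] at hcon
  obtain ⟨ℓ, hℓ⟩ : ∃ ℓ : ℤ, ∑ p ∈ T0, (E.lam p : ℤ) * M p = ℓ + E.κ * M E.w :=
    ⟨_, (sub_add_cancel _ _).symm⟩
  obtain ⟨a0, ha0⟩ : ∃ a0 : ℤ, ∑ p ∈ T0, (E.lam p : ℤ) * A.div p = a0 + E.κ * A.div E.w :=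
    ⟨_, (sub_add_cancel _ _).symm⟩
  have hℓ0 : ℓ ≤ 0 := by
    rw [hℓ] at hcon
    omega
  have hkey := key E M A.div T0 hTS hTM hTA ℓ a0 hℓ ha0
  have hnn : ∀ (F : LinSys K) (f : K), f ∈ F.gens → ∀ p : DivVal K, 0 ≤ p.ord f + F.div p := by
    intro F f hf p
    have := le_div F p hf
    omega
  have ha00 : 0 ≤ a0 := by
    obtain ⟨f, hf, hfw⟩ := div_eq F1 E.w
    obtain ⟨T, -, -, h3⟩ := hkey F1 N1 1 hF1 f hf hfw
    have h4 : 0 ≤ ∑ p ∈ T, (E.lam p : ℤ) * (p.ord f + F1.div p) :=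
      Finset.sum_nonneg (fun p _ => mul_nonneg (Int.natCast_nonneg _) (hnn F1 f hf p))
    rw [h3, Nat.cast_one, one_mul] at h4
    have h5 : (0 : ℤ) < N1 := by exact_mod_cast hN1
    have h6 : 0 ≤ ℓ + a0 := nonneg_of_mul_nonneg_right h4 h5
    omega
  obtain ⟨c, hc⟩ := E.growth
  choose! φ hφ0 hφ1 hφ2 using hc
  obtain ⟨g1, hg1⟩ := V.G.nonempty
  obtain ⟨a1, ha1⟩ := A.nonempty
  have hc0 : (0 : ℤ) ≤ c := Int.natCast_nonneg c
  obtain ⟨t, ht⟩ := Int.eq_ofNat_of_zero_le (mul_nonneg hc0 ha00)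
  refine ⟨⟨V.G.gens.image (fun g => g ^ t), V.G.nonempty.image _, ?_⟩, ?_⟩
  · intro g hg
    obtain ⟨g', hg', rfl⟩ := Finset.mem_image.mp hg
    exact pow_ne_zero _ (V.G.ne_zero g' hg')
  intro m hm
  set A' : LinSys K := ⟨V.G.gens.image (fun g => g ^ t), V.G.nonempty.image _, _⟩ with hA'
  have hA'd : ∀ v : DivVal K, (t : ℤ) * V.G.div v ≤ A'.div v := by
    intro v
    obtain ⟨g, hg, hgv⟩ := div_eq V.G v
    have h1 : g ^ t ∈ A'.gens := Finset.mem_image_of_mem _ hg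
    have h2 := le_div A' v h1
    rw [ord_pow v (V.G.ne_zero g hg)] at h2
    rw [hgv]
    linarith
  obtain ⟨N, F, hN, hF⟩ := hA m hm
  obtain ⟨f, hf, hfw⟩ := div_eq F E.w
  have hf0 := F.ne_zero f hf
  obtain ⟨T, hT1, hT2, hT3⟩ := hkey F N m hF f hf hfw
  obtain ⟨s, hs⟩ : ∃ s : ℤ, s = N * (m * ℓ + a0) := ⟨_, rfl⟩
  rw [← hs] at hT3
  have hN0 : (0 : ℤ) ≤ N := Int.natCast_nonneg N
  have hm0 : (0 : ℤ) ≤ m := Int.natCast_nonneg m
  have hsN : s ≤ N * a0 := by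
    rw [hs]
    refine mul_le_mul_of_nonneg_left ?_ hN0
    have : (m : ℤ) * ℓ ≤ 0 := mul_nonpos_of_nonneg_of_nonpos hm0 hℓ0
    omega
  obtain ⟨e, he⟩ := Int.eq_ofNat_of_zero_le (mul_nonneg hc0 (sub_nonneg.mpr hsN))
  obtain ⟨tN, htN⟩ := Int.eq_ofNat_of_zero_le (mul_nonneg hc0 (mul_nonneg hN0 ha00))
  set D : DivVal K → ℤ := fun p => p.ord f + F.div p with hD
  have hD0 : ∀ p, 0 ≤ D p := hnn F f hf
  set Φ := ∏ p ∈ T, φ p ^ (D p).toNat with hΦ
  have hΦ0 : Φ ≠ 0 :=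
    Finset.prod_ne_zero_iff.mpr (fun p hp => pow_ne_zero _ (hφ0 p (hT1 p hp)))
  have hg10 := V.G.ne_zero g1 hg1
  set h := Φ * g1 ^ e / f with hh
  have hh0 : h ≠ 0 := div_ne_zero (mul_ne_zero hΦ0 (pow_ne_zero _ hg10)) hf0
  have hordh : ∀ q : DivVal K, q.ord h =
      ∑ p ∈ T, D p * q.ord (φ p) + e * q.ord g1 - q.ord f := by
    intro q
    rw [hh, ord_div q (mul_ne_zero hΦ0 (pow_ne_zero _ hg10)) hf0,
      q.ord_mul _ _ hΦ0 (pow_ne_zero _ hg10), ord_pow q hg10, hΦ,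
      ord_prod q T φ _ (fun p hp => hφ0 p (hT1 p hp))]
    congr 2
    refine Finset.sum_congr rfl fun p _ => ?_
    rw [Int.toNat_of_nonneg (hD0 p)]
  have hq : ∀ q ∈ V.primes, F.div q ≤ q.ord h + (tN : ℤ) * V.G.div q := by
    intro q hqS
    have hterm : ∀ p ∈ T, 0 ≤ D p * (q.ord (φ p) + ((c * E.lam p : ℕ) : ℤ) * V.G.div q) :=
      fun p hp => mul_nonneg (hD0 p) (hφ2 p (hT1 p hp) q hqS)
    have S1 : D q ≤ ∑ p ∈ T, D p * (q.ord (φ p) + ((c * E.lam p : ℕ) : ℤ) * V.G.div q) := by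
      by_cases hqT : q ∈ T
      · refine le_trans ?_ (Finset.single_le_sum hterm hqT)
        have h1 := hφ1 q hqS
        have h2 : D q * 1 ≤ D q * (q.ord (φ q) + ((c * E.lam q : ℕ) : ℤ) * V.G.div q) :=
          mul_le_mul_of_nonneg_left (by omega) (hD0 q)
        rwa [mul_one] at h2
      · have h1 : D q = 0 := hT2 q hqS hqT
        rw [h1]
        exact Finset.sum_nonneg hterm
    have S2 : ∑ p ∈ T, D p * (q.ord (φ p) + ((c * E.lam p : ℕ) : ℤ) * V.G.div q) =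
        ∑ p ∈ T, D p * q.ord (φ p) + c * s * V.G.div q := by
      rw [← hT3, Finset.mul_sum, Finset.sum_mul, ← Finset.sum_add_distrib]
      refine Finset.sum_congr rfl fun p _ => ?_
      simp only [hD]
      push_cast
      ring
    rw [S2] at S1
    have S3 : 0 ≤ (e : ℤ) * (q.ord g1 + V.G.div q) :=
      mul_nonneg (Int.natCast_nonneg e) (hnn V.G g1 hg1 q)
    have S4 : (tN : ℤ) * V.G.div q = c * s * V.G.div q + e * V.G.div q := by
      have h1 : (tN : ℤ) = c * (N * a0) := htN.symm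
      have h2 : (e : ℤ) = c * (N * a0 - s) := he.symm
      rw [h1, h2]
      ring
    rw [hordh q, S4]
    have S5 : D q = q.ord f + F.div q := rfl
    rw [S5] at S1
    linarith
  refine ⟨N, h * a1 ^ N, hN, mul_ne_zero hh0 (pow_ne_zero _ (A.ne_zero a1 ha1)), ?_⟩
  intro v
  obtain ⟨f', hf', hfv⟩ := div_eq F v
  have hf'0 := F.ne_zero f' hf'
  have h1 : 0 ≤ v.ord (h * f') + (tN : ℤ) * V.G.div v := by
    refine hSTAR K V tN (h * f') (mul_ne_zero hh0 hf'0) ?_ v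
    intro q hqS
    rw [q.ord_mul _ _ hh0 hf'0]
    have h2 := hq q hqS
    have h3 := le_div F q hf'
    linarith
  rw [v.ord_mul _ _ hh0 hf'0] at h1
  rw [v.ord_mul _ _ hh0 (pow_ne_zero _ (A.ne_zero a1 ha1)), ord_pow v (A.ne_zero a1 ha1)]
  have h2 : (N : ℤ) * (-v.ord a1) ≤ N * A.div v := mul_le_mul_of_nonneg_left (le_div A v ha1) hN0
  have h3 : (N : ℤ) * ((t : ℤ) * V.G.div v) ≤ N * A'.div v :=
    mul_le_mul_of_nonneg_left (hA'd v) hN0
  have h4 := hF v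
  rw [hfv] at h4
  have h5 : (tN : ℤ) * V.G.div v = N * ((t : ℤ) * V.G.div v) := by
    have e1 : (tN : ℤ) = c * (N * a0) := htN.symm
    have e2 : (t : ℤ) = c * a0 := ht.symm
    rw [e1, e2]
    ring
  rw [h5] at h1
  have h6 : (N : ℤ) * ((m : ℤ) * -M v + A'.div v) =
      -((N : ℤ) * (m * M v + A.div v)) + N * A.div v + N * A'.div v := by ring
  rw [h6, h4]
  linarith

end Pool.Agent.Helper32.GX
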